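import Pool.Agent.helper96.S5.SpecR

/-!
# MP_0b485e_lc, level 5, row CAL: long right strings give the true permissions
-/

set_option autoImplicit false

namespace S5

open PF

noncomputable section

open Classical

theorem CAL_typ (T : List (ℕ × ℕ × ℕ)) (tt tt' : ℕ → Prop) (k : ℕ)
    (h : ∀ s, s ≤ k → lq tt s = lq tt' s) : typ T tt k = typ T tt' k := by
  have hle : ∀ t t' : ℕ → Prop, (∀ s, s ≤ k → lq t s = lq t' s) → (∃ s ≤ k, lq t s = k) →
      (∃ s ≤ k, lq t' s = k) ∧ (lst fun s => lq t' s = k) ≤ lst fun s => lq t s = k := by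
    intro t t' ht hex
    obtain ⟨s, hs, hk⟩ := hex
    have h1 : (lst fun s => lq t s = k) ≤ s := lst_le (Q := fun s => lq t s = k) hk
    have h2 : lq t (lst fun s => lq t s = k) = k :=
      lst_spec (Q := fun s => lq t s = k) ⟨s, hk⟩
    refine ⟨⟨s, hs, (ht s hs).symm.trans hk⟩, ?_⟩
    apply lst_le (Q := fun s => lq t' s = k)
    show lq t' (lst fun s => lq t s = k) = k
    rw [← ht _ (le_trans h1 hs)]
    exact h2
  by_cases hex : ∃ s ≤ k, lq tt s = k
  · obtain ⟨hex', hle1⟩ := hle tt tt' h hex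
    have hle2 := (hle tt' tt (fun s hs => (h s hs).symm) hex').2
    have heq : (lst fun s => lq tt s = k) = lst fun s => lq tt' s = k := le_antisymm hle2 hle1
    unfold typ
    rw [if_pos hex, if_pos hex', heq]
  · have hex' : ¬ ∃ s ≤ k, lq tt' s = k := fun h' =>
      hex (hle tt' tt (fun s hs => (h s hs).symm) h').1
    unfold typ
    rw [if_neg hex, if_neg hex']

theorem CAL_row (hLQC : LQC_stmt) (hLQI : LQI_stmt) (hTTN : TTN_stmt) (_hLQS : LQS_stmt) :
    CAL_stmt := by
  intro X hX k
  obtain ⟨h1, -, h3, h4, -⟩ := hTTN X hX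
  have hLg := hLQC X.TT h1
  choose N hN using hLg
  refine ⟨(Finset.range (k + 1)).sup N, ?_⟩
  intro g l hRS hn l' c
  have hent : ∀ i, ent g i ≠ 0 ↔ i < g.length ∧ X.B.C i k := by
    intro i
    by_cases hi : i < g.length
    · rw [hRS.1 i hi]
      exact ⟨fun h => ⟨hi, h⟩, fun h => h.2⟩
    · constructor
      · intro h
        exfalso
        apply h
        unfold ent
        rw [List.getD_eq_default]
        exact not_lt.1 hi
      · intro h
        exact absurd h.1 hi
  have hlq : ∀ s, s ≤ k → lq (fun i => ent g i ≠ 0) s = lq X.TT s := by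
    intro s hs
    have h5 : lq (fun i => ent g i ≠ 0) s = lq (fun i => i < g.length ∧ X.TT i) s := by
      apply hLQI
      · intro b j y
        show ent g (pI b j y) ≠ 0 ↔ pI b j y < g.length ∧ X.TT (pI b j y)
        rw [hent, h4 k b j y]
      · intro z
        show ent g (pN z) ≠ 0 ↔ pN z < g.length ∧ X.TT (pN z)
        rw [hent, h3 k z]
    rw [h5]
    apply hN s
    exact le_trans (Finset.le_sup (f := N) (Finset.mem_range.2 (Nat.lt_succ_of_le hs))) hn
  show alT X.m (typ X.T (fun i => ent g i ≠ 0) k) l' c ↔ alT X.m (typ X.T X.TT k) l' c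
  rw [CAL_typ X.T (fun i => ent g i ≠ 0) X.TT k hlq]

end

end S5
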